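import Mathlib
import Pool.Agent.Y571.ST.Fin

set_option autoImplicit false

namespace Pool.Agent.Results.MP_f600e0_lc.EveryFiniteSet

open Pool.Agent.H695R2.Steiner Pool.Agent.Y571.ST

open Classical in
/-- For all `n` and `ρ` there are nonempty open sets `U`, `V`, `W` of the plane such that for every
nonempty set `Q` of at most `n` points of the closed disc of radius `ρ` about the origin and all
`a ∈ U`, `b ∈ V`, `c ∈ W` the set `Q ∪ {a, b, c}` (which has `|Q| + 3` points) has no minimum-weight
Steiner triangulation: it has Steiner triangulations, and each of them has weight strictly larger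
than the infimum. -/
theorem result (n : ℕ) (ρ : ℝ) :
    ∃ U V W : Set Plane, IsOpen U ∧ U.Nonempty ∧ IsOpen V ∧ V.Nonempty ∧ IsOpen W ∧ W.Nonempty ∧
      ∀ Q : Finset Plane, Q.Nonempty → Q.card ≤ n → (∀ q ∈ Q, ‖q‖ ≤ ρ) →
        ∀ a ∈ U, ∀ b ∈ V, ∀ c ∈ W,
          (Q ∪ {a, b, c}).card = Q.card + 3 ∧
          (∃ T : Finset (Sym2 Plane), IsSteinerTriangulation (Q ∪ {a, b, c}) T) ∧
          ∀ T : Finset (Sym2 Plane), IsSteinerTriangulation (Q ∪ {a, b, c}) T →
            infWeight (Q ∪ {a, b, c}) < weight T :=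
  main n ρ

end Pool.Agent.Results.MP_f600e0_lc.EveryFiniteSet
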