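import Mathlib
import Pool.Agent.Y571.ST.Fin

set_option autoImplicit false

namespace Pool.Agent.Results.MP_f600e0_lc.SharpThreshold

open Pool.Agent.H695R2.Steiner Pool.Agent.Y571.ST

/-- There are sets of every size. -/
theorem exists_card (k : ℕ) : ∃ Q : Finset Plane, Q.card = k := by
  classical
  refine ⟨(Finset.range k).image (fun i : ℕ => (!₂[(i : ℝ), 0] : Plane)), ?_⟩
  rw [Finset.card_image_of_injective _ ?_, Finset.card_range]
  intro i j h
  have h1 := congrArg cx h
  have h2 : (i : ℝ) = (j : ℝ) := h1
  exact_mod_cast h2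

/-- Sharp threshold: every planar set of exactly `n` points has a minimum-weight Steiner
triangulation if and only if `n ≤ 3`. So sets of at most three points always have one, and for
every `n ≥ 4` there is a set of `n` points for which the infimum is not attained. -/
theorem result (n : ℕ) : (∀ P : Finset Plane, P.card = n →
    ∃ T : Finset (Sym2 Plane), IsSteinerTriangulation P T ∧ weight T = infWeight P) ↔ n ≤ 3 := by
  refine ⟨fun h => ?_, fun hn P hP => card_le_three P (by omega)⟩
  by_contra hn
  obtain ⟨Q, hQ⟩ := exists_card (n - 3)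
  have hQne : Q.Nonempty := by
    rw [← Finset.card_pos, hQ]
    omega
  obtain ⟨U, V, W, -, ⟨a, ha⟩, -, ⟨b, hb⟩, -, ⟨c, hc⟩, hall⟩ := main n (∑ q ∈ Q, ‖q‖)
  obtain ⟨h1, -, h3⟩ := hall Q hQne (by omega)
    (fun q hq => Finset.single_le_sum (f := fun q : Plane => ‖q‖) (fun q _ => norm_nonneg q) hq)
    a ha b hb c hc
  obtain ⟨T, hT, hTw⟩ := h (PP Q a b c) (by rw [h1, hQ]; omega)
  have := h3 T hT
  linarith

end Pool.Agent.Results.MP_f600e0_lc.SharpThreshold
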